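import Pool.Agent.Run7.h640.FP.Iface

set_option autoImplicit false

open scoped Classical

namespace Run7.h640.FP

theorem prove_CUT : S_CUT := by
  intro D R i j r hD hDR hr hRi hij hw
  obtain ⟨δ, rfl⟩ : ∃ δ, j = i + δ := ⟨j - i, by omega⟩
  have hδ : i + δ - i = δ := by omega
  rw [hδ]
  -- compatibility on the overlap
  have hov : ∀ u v, i - R ≤ u → u < i + R → i - R ≤ v → v < i + R →
      (r u v ↔ r (u + δ) (v + δ)) := by
    intro u v h1 h2 h3 h4
    have := hw (u - (i - R)) (v - (i - R)) (by omega) (by omega)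
    have e1 : i - R + (u - (i - R)) = u := by omega
    have e2 : i - R + (v - (i - R)) = v := by omega
    have e3 : i + δ - R + (u - (i - R)) = u + δ := by omega
    have e4 : i + δ - R + (v - (i - R)) = v + δ := by omega
    rwa [e1, e2, e3, e4] at this
  let r' : ℕ → ℕ → Prop := fun u v =>
    if u < i + R ∧ v < i + R then r u v
    else if i - R ≤ u ∧ i - R ≤ v then r (u + δ) (v + δ)
    else u < v
  have low : ∀ u v, u < i + R → v < i + R → (r' u v ↔ r u v) := by
    intro u v hu hv
    simp only [r', if_pos (And.intro hu hv)]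
  have high : ∀ u v, i - R ≤ u → i - R ≤ v → (r' u v ↔ r (u + δ) (v + δ)) := by
    intro u v hu hv
    by_cases h : u < i + R ∧ v < i + R
    · rw [low u v h.1 h.2]
      exact hov u v hu h.1 hv h.2
    · simp only [r', if_neg h, if_pos (And.intro hu hv)]
  have mixed : ∀ u v, ¬ (u < i + R ∧ v < i + R) → ¬ (i - R ≤ u ∧ i - R ≤ v) →
      (r' u v ↔ u < v) := by
    intro u v h1 h2
    simp only [r', if_neg h1, if_neg h2]
  refine ⟨r', ⟨?_, ?_, ?_⟩, low, high⟩
  · intro a b hab
    by_cases h1 : a < i + R ∧ b < i + R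
    · exact hr.lt a b ((low a b h1.1 h1.2).1 hab)
    · by_cases h2 : i - R ≤ a ∧ i - R ≤ b
      · have := hr.lt _ _ ((high a b h2.1 h2.2).1 hab)
        omega
      · exact (mixed a b h1 h2).1 hab
  · intro a b c hab hbc
    have lt' : ∀ a b, r' a b → a < b := by
      intro a b hab
      by_cases h1 : a < i + R ∧ b < i + R
      · exact hr.lt a b ((low a b h1.1 h1.2).1 hab)
      · by_cases h2 : i - R ≤ a ∧ i - R ≤ b
        · have := hr.lt _ _ ((high a b h2.1 h2.2).1 hab)
          omega
        · exact (mixed a b h1 h2).1 hab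
    have h1 := lt' a b hab
    have h2 := lt' b c hbc
    by_cases hc : c < i + R
    · rw [low a c (by omega) hc]
      exact hr.trans a b c ((low a b (by omega) (by omega)).1 hab) ((low b c (by omega) hc).1 hbc)
    · by_cases ha : i - R ≤ a
      · rw [high a c ha (by omega)]
        exact hr.trans _ _ _ ((high a b ha (by omega)).1 hab) ((high b c (by omega) (by omega)).1 hbc)
      · rw [mixed a c (by omega) (by omega)]
        omega
  · intro a b hab hlt
    by_cases h1 : a < i + R ∧ b < i + R
    · exact (low a b h1.1 h1.2).2 (hr.far a b hab hlt)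
    · by_cases h2 : i - R ≤ a ∧ i - R ≤ b
      · exact (high a b h2.1 h2.2).2 (hr.far _ _ (by omega) (by omega))
      · exact (mixed a b h1 h2).2 hlt

end Run7.h640.FP
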